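import Pool.Agent.helper11.VN.Spec3i
import Pool.Agent.helper74.VN.SpecA
import Pool.Agent.helper93.VQ.Spec4c

/-!
# Project VN (MP_07c750_an), block LD: REGULAR CURVES and large deviations for ALL negatively curved surfaces; rows `vn:LXX`

The same structure as block 4c+4d of VQ (helper93/VQ/Spec4c.lean; rows `RXX`), but the hyperbolicity comes from the Jacobi equation only. For a variation `ω = [[x/2, b], [c, -x/2]]` at `g`: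
`J = -ρ(b+c)` (normal component), `W = (b-c) - n1/(2ρ²)(b+c) - κx/ρ` (its derivative), `S = x/ρ` (time shift). Along the flow (row NJW of helper74, and a one line computation for `S`), with `a = ρ²`, `q = -ρ² Kg > 0`, `p = 2κ/ρ²`:
  `J' = a W`, `W' = q J`, `S' = p J`.
With the slopes `u = W/J`, `ξ = S/J`: `(log J)' = a u`, `u' = q - a u²`, `ξ' = p - a u ξ`.
All data are bounded and Lipschitz with ONE constant `C = C(k)` (structure `FK`); `m = 1/(3C²)` is the smallest rate, `G = (10 C)^20`, and `F ≥ FM C = exp(40C) (10C)^40 ≥ G²` is the constant of the class of regular curves (`RN C F κ`, `κ = 1/2, 1, 2`):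
cone `u ∈ [1/((1+κ)C), (1+κ)C]`, `|ξ| ≤ (1+κ) 6C³`; on pieces with `κ · (unstable length) ≤ F⁻⁴` the functions `u`, `ξ`, `log J` are Lipschitz functions of the unstable length `ℓ` (`ℓ' = J`) with the constants `κF`, `κF²`, `κF³`.

RULES. Row `vn:LXX`: file `Pool/Agent/<seat>/VN/LXX.lean`, `import Pool.Agent.helper93.VN.SpecL`, `set_option autoImplicit false`, namespace `Pool.Agent.VN`, `open Pool.Agent.RS Pool.Agent.VQ`, auxiliary lemmas prefixed `LXX_`,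
theorem `LXX_proof (h..) : LXX_stmt` (rows listed in `from` may be used as hypotheses `(h : YYY_stmt)`; rows of VQ as `(h : VQ.YYY_stmt)`). Most rows have a model in VQ (`RXX`): copy its proof (Pool/Agent/*/VQ/RXX.lean) and change the details. No `convert`, `congr!`, `native_decide`, no double quotes, no `private`.
-/

open scoped MatrixGroups ContDiff Topology UpperHalfPlane ComplexConjugate ENNReal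
open UpperHalfPlane MeasureTheory Filter Set

namespace Pool.Agent.VN

open Pool.Agent.RS Pool.Agent.VQ
open Pool.Agent.RPQ (mean)
open Pool.Agent.VQE (nm)

noncomputable section

/-! ## Definitions -/

/-- `ρ²` -/
def fa (U : ℍ → ℝ) (E : ℝ) (g : SL(2, ℝ)) : ℝ := rho U E g ^ 2

/-- `-ρ² Kg` -/
def fq (U : ℍ → ℝ) (E : ℝ) (g : SL(2, ℝ)) : ℝ := -(rho U E g ^ 2 * Kg U E g)

/-- `2κ/ρ²` -/
def fp (U : ℍ → ℝ) (E : ℝ) (g : SL(2, ℝ)) : ℝ := 2 * kap U E g / rho U E g ^ 2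

/-- lower bound for the constant of the class -/
def FM (C : ℝ) : ℝ := Real.exp (40 * C) * (10 * C) ^ 40

/-- the time shift of the variation -/
def Sc (U : ℍ → ℝ) (E : ℝ) (g : SL(2, ℝ)) (x : ℝ) : ℝ := x / rho U E g

/-- what is used of the flow in this block -/
structure FK (k C : ℝ) (D : Dyn) : Prop where
  kp : 0 < k
  c1 : 1 ≤ C
  ro : ∀ (E : ℝ) (g : SL(2, ℝ)), |E| ≤ k → 1 / C ≤ rho D.U E g ∧ rho D.U E g ≤ C ∧ 1 / C ≤ fa D.U E g ∧ fa D.U E g ≤ C ∧ 1 / C ≤ fq D.U E g ∧ fq D.U E g ≤ C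
  ka : ∀ (E : ℝ) (g : SL(2, ℝ)), |E| ≤ k → |kap D.U E g| ≤ C ∧ |n1 D.U g| ≤ C ∧ |fp D.U E g| ≤ C
  li : ∀ (E E' : ℝ) (g y : SL(2, ℝ)), |E| ≤ k → |E'| ≤ k → nm y ≤ 1 / 10 → |rho D.U E' (g * y) - rho D.U E g| ≤ C * (nm y + |E' - E|) ∧ |kap D.U E' (g * y) - kap D.U E g| ≤ C * (nm y + |E' - E|) ∧ |n1 D.U (g * y) - n1 D.U g| ≤ C * nm y ∧
    |fa D.U E' (g * y) - fa D.U E g| ≤ C * (nm y + |E' - E|) ∧ |fq D.U E' (g * y) - fq D.U E g| ≤ C * (nm y + |E' - E|) ∧ |fp D.U E' (g * y) - fp D.U E g| ≤ C * (nm y + |E' - E|)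
  zero : ∀ (E : ℝ) (g : SL(2, ℝ)), D.fl E 0 g = g
  add : ∀ (E s t : ℝ) (g : SL(2, ℝ)), |E| ≤ k → D.fl E (s + t) g = D.fl E s (D.fl E t g)
  cont : ContinuousOn (fun p : ℝ × ℝ × SL(2, ℝ) => D.fl p.1 p.2.1 p.2.2) {p | |p.1| ≤ k}
  jac : ∀ (E : ℝ) (g : SL(2, ℝ)) (x b c : ℝ → ℝ), |E| ≤ k → VSol D E g x b c → ∀ t : ℝ,
    HasDerivAt (fun s => Jc D.U E (D.fl E s g) (b s) (c s)) (fa D.U E (D.fl E t g) * Wc D.U E (D.fl E t g) (x t) (b t) (c t)) t ∧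
    HasDerivAt (fun s => Wc D.U E (D.fl E s g) (x s) (b s) (c s)) (fq D.U E (D.fl E t g) * Jc D.U E (D.fl E t g) (b t) (c t)) t ∧
    HasDerivAt (fun s => Sc D.U E (D.fl E s g) (x s)) (fp D.U E (D.fl E t g) * Jc D.U E (D.fl E t g) (b t) (c t)) t
  vs : ∀ (E : ℝ) (γ : ℝ → SL(2, ℝ)) (x b c : ℝ → ℝ), |E| ≤ k → Cv γ x b c → ∃ X Y Z : ℝ → ℝ → ℝ, (∀ v, X 0 v = x v ∧ Y 0 v = b v ∧ Z 0 v = c v) ∧
    (∀ v, VSol D E (γ v) (fun t => X t v) (fun t => Y t v) (fun t => Z t v)) ∧ ∀ t, Cv (fun v => D.fl E t (γ v)) (X t) (Y t) (Z t)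

/-- curves in the unstable cone, `ℓ` = unstable length -/
structure CN (C κ : ℝ) (D : Dyn) (E : ℝ) (γ : ℝ → SL(2, ℝ)) (x b c ℓ : ℝ → ℝ) : Prop extends Cv γ x b c where
  pos : ∀ v, 0 < Jc D.U E (γ v) (b v) (c v)
  dl : ∀ v, HasDerivAt ℓ (Jc D.U E (γ v) (b v) (c v)) v
  cl : ∀ v, Jc D.U E (γ v) (b v) (c v) ≤ (1 + κ) * C * Wc D.U E (γ v) (x v) (b v) (c v)
  cu : ∀ v, Wc D.U E (γ v) (x v) (b v) (c v) ≤ (1 + κ) * C * Jc D.U E (γ v) (b v) (c v)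
  cs : ∀ v, |Sc D.U E (γ v) (x v)| ≤ (1 + κ) * (6 * C ^ 3) * Jc D.U E (γ v) (b v) (c v)

/-- regular curves -/
structure RN (C F κ : ℝ) (D : Dyn) (E : ℝ) (γ : ℝ → SL(2, ℝ)) (x b c ℓ : ℝ → ℝ) : Prop extends CN C κ D E γ x b c ℓ where
  su : ∀ v v' : ℝ, v ≤ v' → κ * (ℓ v' - ℓ v) ≤ 1 / F ^ 4 →
    |Wc D.U E (γ v) (x v) (b v) (c v) / Jc D.U E (γ v) (b v) (c v) - Wc D.U E (γ v') (x v') (b v') (c v') / Jc D.U E (γ v') (b v') (c v')| ≤ κ * F * (ℓ v' - ℓ v)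
  ss : ∀ v v' : ℝ, v ≤ v' → κ * (ℓ v' - ℓ v) ≤ 1 / F ^ 4 →
    |Sc D.U E (γ v) (x v) / Jc D.U E (γ v) (b v) (c v) - Sc D.U E (γ v') (x v') / Jc D.U E (γ v') (b v') (c v')| ≤ κ * F ^ 2 * (ℓ v' - ℓ v)
  di : ∀ v v' : ℝ, v ≤ v' → κ * (ℓ v' - ℓ v) ≤ 1 / F ^ 4 → |Real.log (Jc D.U E (γ v') (b v') (c v')) - Real.log (Jc D.U E (γ v) (b v) (c v))| ≤ κ * F ^ 3 * (ℓ v' - ℓ v)

/-- one big step with the noise `o`: rotation, time, rotation, energy -/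
def PhiN (D : Dyn) (t : ℝ) (p : SL(2, ℝ) × ℝ) (o : ℝ × ℝ × ℝ × ℝ) : SL(2, ℝ) × ℝ := (D.fl p.2 (t + o.2.1) (p.1 * kM o.1) * kM o.2.2.1, p.2 + o.2.2.2)

/-- average over the noise (not normalised) -/
def PVN (D : Dyn) (A : Prm) (R : ℝ) (V : SL(2, ℝ) × ℝ → ENNReal) (p : SL(2, ℝ) × ℝ) : ENNReal :=
  ∫⁻ o in bx (r2 A R), (V (PhiN D (A.tu R) p o) + V (ngM * (PhiN D (A.tu R) p o).1, (PhiN D (A.tu R) p o).2))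

/-- **DON** (DOMINATION, owner helper84) -/
def DON_stmt : Prop := ∀ (Γ : Subgroup SL(2, ℝ)) (ch : ℝ → ℝ) (k : ℝ) (B : ℕ → ℝ), QU.SurfaceGroup Γ → CH ch → 0 < k → ∃ C : ℝ, 1 ≤ C ∧ ∀ A : Prm, Adm C A → ∃ R0 : ℝ, 1 ≤ R0 ∧
  ∀ (R : ℝ) (D : Dyn), R0 ≤ R → OKN Γ k B D → ∀ (p : SL(2, ℝ) × ℝ) (V : SL(2, ℝ) × ℝ → ENNReal), p.2 ∈ Wi (3 / 2) R → Measurable V →
    (∀ q : SL(2, ℝ) × ℝ, ub D ch A R p q ≠ 0 → |q.2 - p.2| ≤ r2 A R) ∧ ∫⁻ q, ‖ub D ch A R p q‖ₑ ^ 2 * V q ∂mW R ≤ ENNReal.ofReal (R ^ (4 + C * A.z2)) * PVN D A R V p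

/-! ## 1. The flow -/

/-- **Row LVS** (short; from VQ.FLC (helper80, SpecFL)). `OKN Γ k B D` implies `VQ.OKG Γ k B D` (field by field; `4k ≤ 8k ≤ U`), FLC with `e = k`: `X t v = w E t (γ v) 0 0 * x v + w E t (γ v) 0 1 * b v + w E t (γ v) 0 2 * c v` etc.; continuity in `v`: `γ` is continuous (its entries are differentiable; `SL(2, ℝ)` has the subspace topology), `w` is continuous on `|E| ≤ k`. -/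
def LVS_stmt : Prop := ∀ (Γ : Subgroup SL(2, ℝ)) (k : ℝ) (B : ℕ → ℝ) (D : Dyn), OKN Γ k B D → ∀ (E : ℝ) (γ : ℝ → SL(2, ℝ)) (x b c : ℝ → ℝ), |E| ≤ k → Cv γ x b c → ∃ X Y Z : ℝ → ℝ → ℝ, (∀ v, X 0 v = x v ∧ Y 0 v = b v ∧ Z 0 v = c v) ∧
  (∀ v, VSol D E (γ v) (fun t => X t v) (fun t => Y t v) (fun t => Z t v)) ∧ ∀ t, Cv (fun v => D.fl E t (γ v)) (X t) (Y t) (Z t)

/-- **Row LFK** (medium; from NUB, NJW, NDN, VCD, LVS, FLBN). Bounds: NUB, `Kg ≤ -k`, `ρ² ≥ 6k` (`C` = maximum of finitely many constants depending on `k`). Lipschitz (`li`): as row RFF (b) of VQ (`Pool/Agent/helper26/VQ/RFF.lean` if landed, `Pool/Agent/helper90/VQ/FE4.lean`): `Ug U (g y) v = Ug U g (m v)` with `m` a Möbius map, `|m 0|, |m'(0) - 1|, |m''(0)| ≤ 4 nm y`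
(constants like 4 are not important); `n1, n2, hess` are the first and second derivatives of `Ug U (g y)` at `0`, that is combinations of the derivatives of order `≤ 2` of `Ug U g` at `m 0` (`|m 0| ≤ 1` for `nm y ≤ 1/10`) and of `m'(0)`, `m''(0)`; the third derivatives are bounded by `1/k`: `|u(gy) - u(g)| ≤ C nm y` for `u = U(·•I), n1, n2, hess i j`.
ALTERNATIVE for `li` (probably shorter): the path `s ↦ g y_s` from `g` to `g y` (`y_s` with entries depending affinely on `s` except one, as in `Pool/Agent/helper84/VN/Spec4n.lean`, row FN4) and NDN for `U, n1, n2`; for `hess` the first method. Then `rho = √(U + 2E)`, `kap = n2/(2 rho)`, `fa, fq, fp` are smooth functions of these and of `E` with `ρ² ≥ 6k`.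
`jac`: NJW (`fa`, `fq` are `rho²`, `-(rho² Kg)`: `rfl` up to `ring`), and `(x/ρ)' = 2κJ/ρ²`: `x' = -κ(b+c) + dr`, `dr = (n1 x - n2(b+c))/(2ρ)`, `n2/(2ρ) = κ`, `ρ' = n1/2` along the flow (NDN with `x = ρ`, `b = -c = κ/2`), so `x' = -2κ(b+c) + n1 x/(2ρ)` and `(x/ρ)' = x'/ρ - x n1/(2ρ²) = -2κ(b+c)/ρ = 2κJ/ρ²`. `vs`: LVS. `add`: FLBN. -/
def LFK_stmt : Prop := ∀ (Γ : Subgroup SL(2, ℝ)) (k : ℝ) (B : ℕ → ℝ), QU.SurfaceGroup Γ → 0 < k → ∃ C : ℝ, 1 ≤ C ∧ ∀ D : Dyn, OKN Γ k B D → FK k C D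

/-- **Row LMS** (measurability; short-medium; model: RMS). `(p, o) ↦ PhiN`: `D.fl E t g` is continuous on `|E| ≤ k` (`cfl`) and `= g` otherwise (`out`), `kM` is continuous: split at the measurable set `|p.2| ≤ k`. `PVN`: `Measurable.lintegral_prod_right'`. `BadP`: `avP D h t p = t⁻¹ ∫_0^t h (fl p.2 s p.1 • I)`, jointly measurable integrand (`h` is Lipschitz, `TF.lip`; the same splitting),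
`StronglyMeasurable.integral_prod_right'`; `intervalIntegral` by `0 ≤ t` or `t ≤ 0`. -/
def LMS_stmt : Prop := ∀ (Γ : Subgroup SL(2, ℝ)) (k : ℝ) (B : ℕ → ℝ) (D : Dyn), OKN Γ k B D →
  (∀ t : ℝ, Measurable (fun q : (SL(2, ℝ) × ℝ) × (ℝ × ℝ × ℝ × ℝ) => PhiN D t q.1 q.2)) ∧ (∀ (A : Prm) (R : ℝ) (V : SL(2, ℝ) × ℝ → ENNReal), Measurable V → Measurable (PVN D A R V)) ∧
  ∀ (Fd : Set ℍ) (h : ℍ → ℝ) (e t : ℝ), TF Γ h → MeasurableSet (BadP D Fd h e t)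

/-! ## 2. The Jacobi equation (pure calculus for three functions) -/

/-- **Row LSL** (cone, growth, slopes; medium; PURE). `J' = aW`, `W' = qJ`, `S' = pJ`, `a, q ∈ [1/C, C]`, `|p| ≤ C`, `m = 1/(3C²)`. (1) `(JW)' = aW² + qJ² ≥ 0`, so `J, W` do not vanish on `[0,∞)` and stay positive. (2) `f = W - J/(3C)`: `f' = -(a/(3C)) f + (q - a/(9C²)) J ≥ -(a/(3C)) f`, so `(e^(∫ a/(3C)) f)' ≥ 0` and `f ≥ 0`. `f = 3CJ - W`: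
`f' = 3CaW - qJ = -3Ca f + (9C²a - q)J ≥ -3Ca f`: `f ≥ 0` in the same way. `f = 18C³J ∓ S`: `f' = 18C³aW ∓ pJ ≥ (6C - C)J ≥ 0`. (3) growth: `J' = aW ∈ [mJ, 3C²J]`. (4) for `t ≥ 3C²`: `u = W/J ≥ 1/(3C)` and `u' = q - au² ≥ 1/C - 4C/(9C²) = 5/(9C)` as long as `u ≤ 2/(3C)`, so `u ≥ 2/(3C)` after the time `3/5 ≤ 3C²` and it stays there;
`u ≤ 3C` and `u' ≤ C - (9/4)C = -(5/4)C` as long as `u ≥ (3/2)C`. `ξ = S/J`: `ξ' = p - auξ`, `|ξ| ≤ 3C³ + 15C³e^{-mt} ≤ 9C³` (`(e^{mt}(|ξ| - 3C³))` is nonincreasing while `|ξ| ≥ 3C³`; use `f = (3C³ + 15C³e^{-mt})J ∓ S`, `f' = (…)aW - 15C³me^{-mt}J ∓ pJ ≥ (3C³ + 15C³e^{-mt})mJ - 15C³me^{-mt}J - CJ ≥ 0`). -/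
def LSL_stmt : Prop := ∀ (C : ℝ) (a q p J W S : ℝ → ℝ), 1 ≤ C → Continuous a → Continuous q → Continuous p →
  (∀ t : ℝ, 0 ≤ t → 1 / C ≤ a t ∧ a t ≤ C ∧ 1 / C ≤ q t ∧ q t ≤ C ∧ |p t| ≤ C) →
  (∀ t : ℝ, HasDerivAt J (a t * W t) t ∧ HasDerivAt W (q t * J t) t ∧ HasDerivAt S (p t * J t) t) →
  0 < J 0 → J 0 ≤ 3 * C * W 0 → W 0 ≤ 3 * C * J 0 → |S 0| ≤ 18 * C ^ 3 * J 0 → ∀ t : ℝ, 0 ≤ t →
    0 < J t ∧ J t ≤ 3 * C * W t ∧ W t ≤ 3 * C * J t ∧ |S t| ≤ 18 * C ^ 3 * J t ∧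
    (∀ s : ℝ, 0 ≤ s → s ≤ t → Real.exp ((t - s) / (3 * C ^ 2)) * J s ≤ J t ∧ J t ≤ Real.exp (3 * C ^ 2 * (t - s)) * J s) ∧
    (3 * C ^ 2 ≤ t → J t ≤ 3 / 2 * C * W t ∧ W t ≤ 3 / 2 * C * J t ∧ |S t| ≤ 9 * C ^ 3 * J t)

/-- **Row LS0** (start with `J = 0`; short-medium; PURE). `J(0) = S(0) = 0`, `W(0) = 2`. `J, W > 0` for `t > 0`, `W ≥ 2`. `J(1) = ∫ aW ≥ 2/C`. `f = CW - J`: `f' = CqJ - aW = -(a/C) f + (Cq - a/C)J ≥ -(a/C) f`, `f(0) > 0`: `J ≤ CW`. `f = C J cosh t - W sinh t`: `f(0) = 0`,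
`f' = (Ca - 1) W cosh t + (C - q) J sinh t ≥ 0`, so `C J(1) ≥ tanh(1) W(1) ≥ (2/3) W(1)` (`tanh 1 ≥ 0.76`). `|S(1)| ≤ ∫ C J ≤ C J(1)` (`J` is nondecreasing); `(J + W)' ≤ C (J + W)`: `J, W ≤ 2e^C` on `[0,1]`. -/
def LS0_stmt : Prop := ∀ (C : ℝ) (a q p J W S : ℝ → ℝ), 1 ≤ C → Continuous a → Continuous q → Continuous p →
  (∀ t : ℝ, 0 ≤ t → 1 / C ≤ a t ∧ a t ≤ C ∧ 1 / C ≤ q t ∧ q t ≤ C ∧ |p t| ≤ C) →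
  (∀ t : ℝ, HasDerivAt J (a t * W t) t ∧ HasDerivAt W (q t * J t) t ∧ HasDerivAt S (p t * J t) t) →
  J 0 = 0 → W 0 = 2 → S 0 = 0 → 2 / C ≤ J 1 ∧ J 1 ≤ 2 * Real.exp C ∧ J 1 ≤ 3 / 2 * C * W 1 ∧ W 1 ≤ 3 / 2 * C * J 1 ∧ |S 1| ≤ C * J 1 ∧ ∀ t : ℝ, 0 ≤ t → t ≤ 1 → |J t| ≤ 2 * Real.exp C ∧ |W t| ≤ 2 * Real.exp C ∧ |S t| ≤ 2 * C * Real.exp C

/-- **Row LTW** (two solutions; medium; PURE). `m = 1/(3C²)`, `Λ_t = Λe^{-m(T-t)}`, `G = (10C)^20`; all coefficients differ by at most `100C⁵Λ_t` (hypothesis). `u' - u~' = -a(u+u~)(u-u~) + (q-q~) - (a-a~)u~²`, `a(u+u~) ≥ 2m`, the rest is at most `1000C⁷Λ_t`: `|Δu(t)| ≤ e^{-2mt}A1 + 1000C⁹Λ_t`. `Δξ' = -auΔξ - (au - a~u~)ξ~ + (p-p~)`,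
`|au - a~u~| ≤ C|Δu| + 300C⁶Λ_t`, `|ξ~| ≤ 18C³`: `|Δξ(T)| ≤ e^{-mT}(A2 + 54C⁶A1) + G²Λ`. `(log J - log J~)' = au - a~u~`: integrate. (For a function `y` with `y' = -λy + r`, `λ ≥ λ0 > 0` continuous: `|y(T)| ≤ e^{-λ0T}|y(0)| + ∫ e^{-λ0(T-t)}|r|`.) -/
def LTW_stmt : Prop := ∀ (C T Λ A1 A2 A3 : ℝ) (a q p J W S a' q' p' J' W' S' : ℝ → ℝ), 1 ≤ C → 0 ≤ T → 0 ≤ Λ →
  Continuous a → Continuous q → Continuous p → Continuous a' → Continuous q' → Continuous p' →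
  (∀ t : ℝ, 0 ≤ t → t ≤ T → 1 / C ≤ a t ∧ a t ≤ C ∧ |p t| ≤ C ∧ 1 / C ≤ a' t ∧ a' t ≤ C ∧ |p' t| ≤ C ∧
    |a t - a' t| ≤ 100 * C ^ 5 * Λ * Real.exp (-((T - t) / (3 * C ^ 2))) ∧ |q t - q' t| ≤ 100 * C ^ 5 * Λ * Real.exp (-((T - t) / (3 * C ^ 2))) ∧ |p t - p' t| ≤ 100 * C ^ 5 * Λ * Real.exp (-((T - t) / (3 * C ^ 2)))) →
  (∀ t : ℝ, HasDerivAt J (a t * W t) t ∧ HasDerivAt W (q t * J t) t ∧ HasDerivAt S (p t * J t) t ∧ HasDerivAt J' (a' t * W' t) t ∧ HasDerivAt W' (q' t * J' t) t ∧ HasDerivAt S' (p' t * J' t) t) →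
  (∀ t : ℝ, 0 ≤ t → t ≤ T → 0 < J t ∧ J t ≤ 3 * C * W t ∧ W t ≤ 3 * C * J t ∧ |S t| ≤ 18 * C ^ 3 * J t ∧ 0 < J' t ∧ J' t ≤ 3 * C * W' t ∧ W' t ≤ 3 * C * J' t ∧ |S' t| ≤ 18 * C ^ 3 * J' t) →
  |W 0 / J 0 - W' 0 / J' 0| ≤ A1 → |S 0 / J 0 - S' 0 / J' 0| ≤ A2 → |Real.log (J' 0) - Real.log (J 0)| ≤ A3 →
    |W T / J T - W' T / J' T| ≤ Real.exp (-(2 * T / (3 * C ^ 2))) * A1 + (10 * C) ^ 20 * Λ ∧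
    |S T / J T - S' T / J' T| ≤ Real.exp (-(T / (3 * C ^ 2))) * (A2 + (10 * C) ^ 20 * A1) + (10 * C) ^ 40 * Λ ∧
    |Real.log (J' T) - Real.log (J T)| ≤ A3 + (10 * C) ^ 20 * A1 + (10 * C) ^ 40 * Λ

/-! ## 3. Regular curves -/

/-- **Row LDR** (finite differences of a curve in the cone; medium; from `FK`). `x = ρS`, `b + c = -J/ρ`, `b - c = W + n1/(2ρ²)(b+c) + κS`: `|x| ≤ 18C⁴J`, `|b|, |c| ≤ 12C⁴J`. `D(v') = (γ v)⁻¹ γ v'`, `D' = Dω`: the derivatives of the entries are at most `24C⁴J(1 + nm D)`, so `nm D ≤ e^(24C⁴L) - 1 ≤ 30C⁴L`, `L = ℓ v' - ℓ v ≤ 1/(10C)^20` (`ℓ' = J`).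
`(Dω)_ij = ω_ij + O(24C⁴·30C⁴L·J)`; `D₀₁ + D₁₀ = ∫ (b+c) + O(L²)` etc., and `ρ, n1, κ` at `γ v` instead of `γ v''` differ by `C nm D` (`li`). All errors are at most `10⁶C^15 L² ≤ L/(1000C)`: `|J(D) - L| ≤ L/100`, `|W(D) - ∫W| ≤ L/(100C)`, `∫W ∈ [L/(3C), 3CL]`, `|D₀₀ - D₁₁| ≤ 18C⁴L + L`. -/
def LDR_stmt : Prop := ∀ (k C : ℝ) (D : Dyn), FK k C D → ∀ (E : ℝ) (γ : ℝ → SL(2, ℝ)) (x b c ℓ : ℝ → ℝ), |E| ≤ k → CN C 2 D E γ x b c ℓ → ∀ v v' : ℝ, v ≤ v' → ℓ v' - ℓ v ≤ 1 / (10 * C) ^ 20 → ∀ y : SL(2, ℝ), y = (γ v)⁻¹ * γ v' →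
  nm y ≤ 100 * C ^ 4 * (ℓ v' - ℓ v) ∧ |Jc D.U E (γ v) (y.1 0 1) (y.1 1 0) - (ℓ v' - ℓ v)| ≤ (ℓ v' - ℓ v) / 100 ∧
  Jc D.U E (γ v) (y.1 0 1) (y.1 1 0) ≤ 4 * C * Wc D.U E (γ v) (y.1 0 0 - y.1 1 1) (y.1 0 1) (y.1 1 0) ∧
  Wc D.U E (γ v) (y.1 0 0 - y.1 1 1) (y.1 0 1) (y.1 1 0) ≤ 4 * C * Jc D.U E (γ v) (y.1 0 1) (y.1 1 0) ∧ |y.1 0 0 - y.1 1 1| ≤ 40 * C ^ 4 * (ℓ v' - ℓ v)

/-- **Row LGF** (THE CLASS IS PRESERVED BY THE FLOW; medium; from LSL, LTW, LDR; model: RGF). `X, Y, Z` from `FK.vs`; `J, W, S` of the solution satisfy `jac`; `L t v = ∫_0^v J`. Cone, positivity, growth for all `t ≥ 0`: LSL (`a t = fa (fl E t (γ v))` etc. are continuous in `t`: `li`, `cont`). Let `t ≥ 1`, `v ≤ v'`, `Λ = L t v' - L t v`, `L0 = ℓ v' - ℓ v ≤ e^(-mt)Λ`, `m = 1/(3C²)`.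
If `2Λ ≤ F⁻⁴`: `su, ss, di` at the time `0`: `A1 = 2F L0`, `A2 = 2F² L0`, `A3 = 2F³ L0`. For `s ∈ [0,t]`: LDR at the time `s`: `nm D_s ≤ 100C⁴ (L s v' - L s v) ≤ 100C⁴ e^(-m(t-s)) Λ ≤ 1/10`, so the coefficients differ by at most `100C⁵ e^(-m(t-s)) Λ` (`li` with `E' = E`). LTW: `|Δu| ≤ (2F e^(-3mt) + G)Λ ≤ 2FΛ` (`1 - e^(-t/C²) ≥ 1/(2C²)`, `G ≤ F/C²`),
`|Δξ| ≤ (e^(-2mt)(2F² + 2GF) + G²)Λ ≤ 2F²Λ`, `|Δ log J| ≤ (e^(-mt)(2F³ + 2GF) + G²)Λ ≤ 2F³Λ`. If `t ≥ 6C²` and `Λ/2 ≤ F⁻⁴`: `2L0 ≤ 4e^(-2)F⁻⁴ ≤ F⁻⁴`, and the same bounds are `≤ FΛ/2` (`2e^(-6)F + G`), `F²Λ/2` (`e^(-4)`), `F³Λ/2` (`2e^(-2) < 0.28`); cone: last part of LSL. -/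
def LGF_stmt : Prop := ∀ (k C F : ℝ) (D : Dyn), FK k C D → FM C ≤ F → ∀ (E : ℝ) (γ : ℝ → SL(2, ℝ)) (x b c ℓ : ℝ → ℝ), |E| ≤ k → RN C F 2 D E γ x b c ℓ →
  ∃ X Y Z L : ℝ → ℝ → ℝ, (∀ v, X 0 v = x v ∧ Y 0 v = b v ∧ Z 0 v = c v) ∧ (∀ v, VSol D E (γ v) (fun t => X t v) (fun t => Y t v) (fun t => Z t v)) ∧
    (∀ t : ℝ, 0 ≤ t → CN C 2 D E (fun v => D.fl E t (γ v)) (X t) (Y t) (Z t) (L t)) ∧ (∀ v v' : ℝ, L 0 v' - L 0 v = ℓ v' - ℓ v) ∧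
    (∀ s t v v' : ℝ, 0 ≤ s → s ≤ t → v ≤ v' → Real.exp ((t - s) / (3 * C ^ 2)) * (L s v' - L s v) ≤ L t v' - L t v ∧ L t v' - L t v ≤ Real.exp (3 * C ^ 2 * (t - s)) * (L s v' - L s v)) ∧
    (∀ t : ℝ, 1 ≤ t → RN C F 2 D E (fun v => D.fl E t (γ v)) (X t) (Y t) (Z t) (L t)) ∧ ∀ t : ℝ, 6 * C ^ 2 ≤ t → RN C F (1 / 2) D E (fun v => D.fl E t (γ v)) (X t) (Y t) (Z t) (L t)

/-- **Row LJT** (jitter and small change of the energy, and trivial facts; medium; from LDR; model: RJT). (1) `ε = nm y + |E' - E| ≤ 2F⁻³`. `(γ y)' = γ y (y⁻¹ω y)`, the entries of `y⁻¹ω y - ω` are at most `9 ε max |ω_ij| ≤ 108 ε C⁴ J` and linear in `ω`; `J', W', S'` are computed at `γ y` with the energy `E'` (`li`). So `(J', W', S')/J = (1, u, ξ) + ε T(γ(v); u, ξ)`, `|ε T| ≤ Gε`, and `ε T` is Lipschitz in `(u, ξ)`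 with the constant `Gε` and
changes by at most `G nm D` when `γ(v)` is replaced by `γ(v') = γ(v) D` (only `li` is needed: the data at `γ y`, `γ`, `γ D y = γ y (y⁻¹ D y)`, `γ D`), `nm D ≤ 100C⁴ L`. Cones: `(1+κ)(1 + 4G²ε) ≤ 1 + 2κ`. `|Δu'| ≤ 1.1 |Δu| + G²ε|Δξ| + G L ≤ (1.1κF + G²F⁻³κF² + G)L ≤ 2κF (ℓ' v' - ℓ' v)`, `|Δξ'| ≤ 1.1|Δξ| + G²ε|Δu| + GL`,
`|Δ log J'| ≤ |Δ log J| + G²ε(|Δu| + |Δξ|) + GL`, and `ℓ'` = primitive of `J'`, `|J' - J| ≤ J/100`. Range: `2κ(ℓ' v' - ℓ' v) ≤ F⁻⁴` implies `κ(ℓ v' - ℓ v) ≤ F⁻⁴`. (2) `ngM g = -g` acts on `ℍ` as `g`: `Ug U (-g) = Ug U g`, so `rho, kap, n1` are the same. (3) monotone in `κ`. (4) `γ ω = γ ω'` implies `ω = ω'`; primitives differ by constants. -/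
def LJT_stmt : Prop := ∀ (k C F : ℝ) (D : Dyn), FK k C D → FM C ≤ F → ∀ (E : ℝ), |E| ≤ k →
  (∀ (κ E' : ℝ) (γ : ℝ → SL(2, ℝ)) (x b c ℓ : ℝ → ℝ) (y : SL(2, ℝ)), (κ = 1 / 2 ∨ κ = 1) → |E'| ≤ k → |E' - E| ≤ 1 / F ^ 3 → RN C F κ D E γ x b c ℓ → nm y ≤ 1 / F ^ 3 →
    ∃ x' b' c' ℓ' : ℝ → ℝ, RN C F (2 * κ) D E' (fun v => γ v * y) x' b' c' ℓ' ∧ ∀ v v' : ℝ, v ≤ v' → 1 / 2 * (ℓ v' - ℓ v) ≤ ℓ' v' - ℓ' v ∧ ℓ' v' - ℓ' v ≤ 2 * (ℓ v' - ℓ v)) ∧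
  (∀ (κ : ℝ) (γ : ℝ → SL(2, ℝ)) (x b c ℓ : ℝ → ℝ), RN C F κ D E γ x b c ℓ → RN C F κ D E (fun v => ngM * γ v) x b c ℓ) ∧
  (∀ (κ κ' : ℝ) (γ : ℝ → SL(2, ℝ)) (x b c ℓ : ℝ → ℝ), 0 < κ → κ ≤ κ' → RN C F κ D E γ x b c ℓ → RN C F κ' D E γ x b c ℓ) ∧
  ∀ (κ κ' : ℝ) (γ : ℝ → SL(2, ℝ)) (x b c ℓ x' b' c' ℓ' : ℝ → ℝ), RN C F κ D E γ x b c ℓ → RN C F κ' D E γ x' b' c' ℓ' → x = x' ∧ b = b' ∧ c = c' ∧ ∀ v v' : ℝ, ℓ v' - ℓ v = ℓ' v' - ℓ' v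

/-- **Row LST** (the start; medium; from LS0). `γ θ = fl E 1 (g kM θ)`: `(g kM θ)' = g kM θ [[0,1],[-1,0]]`, i.e. `x = 0, b = 1, c = -1`: `J = 0, W = 2, S = 0`. `X t, Y t, Z t` from `FK.vs`. Cone at `t = 1`: LS0 (`κ = 1/2`). For `t ∈ [0,1]`: `|J|, |W|, |S| ≤ 2Ce^C`, so `|ω(t, θ)| ≤ 12C⁵e^C` and `nm ((fl E t (g kM θ))⁻¹ fl E t (g kM θ')) ≤ 100C⁵e^C|θ - θ'|`
(integrate `D' = Dω` in `θ'`, as long as the right side is `≤ 1/10`). The coefficients `a, q, p` at `θ`, `θ'` differ by `C` times this; linear equation: `|Δ(J,W,S)(1)| ≤ 1000C⁸e^(3C)|θ - θ'|`. `J(1) ≥ 2/C`: `ℓ θ' - ℓ θ ≥ (2/C)(θ' - θ)`, so `|Δu|, |Δξ|, |Δ log J| ≤ 10⁴C^12 e^(4C) (ℓ θ' - ℓ θ) ≤ (F/2)(ℓ θ' - ℓ θ)` as soon as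
`(ℓ θ' - ℓ θ)/2 ≤ F⁻⁴` (then `θ' - θ ≤ C F⁻⁴`). -/
def LST_stmt : Prop := ∀ (k C F : ℝ) (D : Dyn), FK k C D → FM C ≤ F → ∀ (E : ℝ) (g : SL(2, ℝ)), |E| ≤ k →
  ∃ x b c ℓ : ℝ → ℝ, RN C F (1 / 2) D E (fun θ => D.fl E 1 (g * kM θ)) x b c ℓ ∧ ∀ θ θ' : ℝ, θ ≤ θ' → 2 / C * (θ' - θ) ≤ ℓ θ' - ℓ θ ∧ ℓ θ' - ℓ θ ≤ 2 * Real.exp C * (θ' - θ)

/-! ## 4. Large deviations along regular curves -/

/-- **Row LUW** (the weak law on a piece; short-medium; from LDR; model: RUW). `L = ℓ v' - ℓ v ≤ 2 l0 ≤ 2F⁻⁵`: by `di` (`κ = 2`) `J(u)(v' - v) ∈ [L/2, 2L]` on `[v, v']` (`4F³·2F⁻⁵` is small), so `ℓ(u') - ℓ(u) ∈ [1/2, 2]·L(u'-u)/(v'-v)`. The curve `s ↦ γ(v + s(v'-v))` is in `UCN (F/l0)`: LDR (`J(D)` within `1 %` of the length; `4C`, `41C⁴ ≤ F`). `UWLN`, scaling. -/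
def LUW_stmt : Prop := ∀ (k C F : ℝ) (D : Dyn), FK k C D → FM C ≤ F → ∀ (Fd : Set ℍ) (h : ℍ → ℝ) (e v0 l0 T0 E0 E : ℝ) (γ : ℝ → SL(2, ℝ)) (x b c ℓ : ℝ → ℝ) (v v' : ℝ), |E| ≤ k → 0 < l0 → l0 ≤ 1 / F ^ 5 → 0 ≤ v0 → UWLN D Fd h e v0 (F / l0) T0 E0 → |E| ≤ E0 →
  RN C F 2 D E γ x b c ℓ → v < v' → l0 ≤ ℓ v' - ℓ v → ℓ v' - ℓ v ≤ 2 * l0 → volume {u : ℝ | u ∈ Icc v v' ∧ e ≤ |avP D h T0 (γ u, E) - mean Fd h|} ≤ ENNReal.ofReal (v0 * (v' - v))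

/-- **Row LVA** (the averages are almost constant on a piece; medium; from LGF, LDR, LJT; model: RVA). `nm D_t ≤ 100C⁴ e^(-m(T-t)) Λ`, `dist ≤ 4 nm`, `T⁻¹ ∫_0^T 400C⁴ e^(-m(T-t)) ≤ 1200C⁶`. -/
def LVA_stmt : Prop := ∀ (k C F : ℝ) (D : Dyn), FK k C D → FM C ≤ F → ∀ (h : ℍ → ℝ) (Lh : ℝ), 0 ≤ Lh → (∀ z w, |h z - h w| ≤ Lh * dist z w) → ∀ (E T : ℝ) (γ : ℝ → SL(2, ℝ)) (x b c ℓ x' b' c' ℓ' : ℝ → ℝ), |E| ≤ k → 1 ≤ T →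
  RN C F 2 D E γ x b c ℓ → RN C F 2 D E (fun v => D.fl E T (γ v)) x' b' c' ℓ' → ∀ u u' : ℝ, u ≤ u' → ℓ' u' - ℓ' u ≤ 1 / F ^ 4 → |avP D h T (γ u, E) - avP D h T (γ u', E)| ≤ F * Lh * (ℓ' u' - ℓ' u)

/-- **Row LLC** (large deviations by induction over the class; medium; from LGF, VQ.RPI; copy of RLC (Pool/Agent/helper34/VQ/RLC.lean)). -/
def LLC_stmt : Prop := ∀ (k C F : ℝ) (D : Dyn), FK k C D → FM C ≤ F → ∀ (E T0 l0 v0 z : ℝ) (B B' : Set SL(2, ℝ)), |E| ≤ k → 1 ≤ T0 → 0 < l0 → l0 ≤ 1 / F ^ 5 → 0 ≤ v0 → 1 ≤ z →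
  (∀ (γ : ℝ → SL(2, ℝ)) (x b c ℓ x' b' c' ℓ' : ℝ → ℝ), RN C F 2 D E γ x b c ℓ → RN C F 2 D E (fun v => D.fl E T0 (γ v)) x' b' c' ℓ' → ∀ u w : ℝ, |ℓ' w - ℓ' u| ≤ 2 * l0 → γ u ∈ B → γ w ∈ B') →
  (∀ (γ : ℝ → SL(2, ℝ)) (x b c ℓ : ℝ → ℝ), RN C F 2 D E γ x b c ℓ → ∀ v v' : ℝ, v < v' → l0 ≤ ℓ v' - ℓ v → ℓ v' - ℓ v ≤ 2 * l0 → volume {u : ℝ | u ∈ Icc v v' ∧ γ u ∈ B'} ≤ ENNReal.ofReal (v0 * (v' - v))) →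
  ∀ (n : ℕ) (γ : ℝ → SL(2, ℝ)) (x b c ℓ : ℝ → ℝ) (v v' : ℝ), RN C F 2 D E γ x b c ℓ → v < v' → l0 ≤ ℓ v' - ℓ v →
    ∫⁻ u in Icc v v', ENNReal.ofReal (z ^ nbd (D.fl E T0) B n (γ u)) ≤ ENNReal.ofReal ((1 + z * v0) ^ n * (v' - v))

/-- **Row LLL** (LARGE DEVIATIONS ALONG REGULAR CURVES; medium; from LLC, LUW, LVA, VQ.RWI; copy of RLL). model: Pool/Agent/helper18/VQ/RLL.lean. `v0 = (2 exp 1)^(-8/e)`, `l0 = min (1/F^5) (e/(8 F (Lh + 1)))`, `z = 1/v0`, `th = e2/(4 T0)`. -/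
def LLL_stmt : Prop := ∀ (Γ : Subgroup SL(2, ℝ)) (Fd : Set ℍ) (k C F : ℝ), QU.SurfaceGroup Γ → QU.NiceDom Γ Fd → 0 < k → 1 ≤ C → FM C ≤ F → ∀ (h : ℍ → ℝ) (e : ℝ), TF Γ h → 0 < e → ∃ v0 l0 : ℝ, 0 < v0 ∧ 0 < l0 ∧ l0 ≤ 1 / F ^ 5 ∧
  ∀ T0 E0 e2 : ℝ, 1 ≤ T0 → 0 < E0 → 0 < e2 → ∃ th R0 : ℝ, 0 < th ∧ 1 ≤ R0 ∧ ∀ (R : ℝ) (D : Dyn), R0 ≤ R → FK k C D → UWLN D Fd h (e / 2) v0 (F / l0) T0 E0 →
    ∀ (E : ℝ) (γ : ℝ → SL(2, ℝ)) (x b c ℓ : ℝ → ℝ) (v v' : ℝ), |E| ≤ 2 * R ^ (-(1 / 4) : ℝ) → RN C F 2 D E γ x b c ℓ → v < v' → l0 ≤ ℓ v' - ℓ v →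
      ∫⁻ u in Icc v v', (BadP D Fd h e (e2 * Real.log R)).indicator (fun _ => 1) (γ u, E) ≤ ENNReal.ofReal (R ^ (-(2 * th)) * (v' - v))

/-! ## 5. Iteration -/

/-- **Row LIA** (iteration of the domination; short-medium; from DON, LMS; copy of RIA, Pool/Agent/helper59/VQ/RIA.lean). Induction on `n`: `qZ (n+1) V p = ∫ ‖ub p y‖² qZ n V y`; for `ub p y ≠ 0`: `|y.2| ≤ |p.2| + r2` (DON), so `qZ n V y ≤ K^n PVN^n V y`; then DON for the measurable function `PVN^n V` (LMS). -/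
def LIA_stmt : Prop := ∀ (Γ : Subgroup SL(2, ℝ)) (ch : ℝ → ℝ) (k : ℝ) (B : ℕ → ℝ), QU.SurfaceGroup Γ → CH ch → 0 < k → ∃ C : ℝ, 1 ≤ C ∧ ∀ A : Prm, Adm C A → ∃ R0 : ℝ, 1 ≤ R0 ∧
  ∀ (R : ℝ) (D : Dyn), R0 ≤ R → OKN Γ k B D → ∀ (V : SL(2, ℝ) × ℝ → ENNReal), Measurable V → ∀ (n : ℕ) (p : SL(2, ℝ) × ℝ), |p.2| + n * r2 A R ≤ 3 / 2 * R ^ (-(1 / 4) : ℝ) →
    qZ (mW R) (fun x y => ‖ub D ch A R x y‖ₑ) n V p ≤ ENNReal.ofReal (R ^ (4 + C * A.z2)) ^ n * (PVN D A R)^[n] V p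

/-- **Row LIB** (iteration along curves; medium; from LGF, LJT; model: RIB). `R0`: `τ = A.tu R ≥ 6C² + 1`, `e^((τ-2)/(6C²)) ≥ 4`, `2 R^(-1/4) ≤ k`, `nm (kM u) ≤ F⁻³` for `|u| ≤ r2`, `r2 ≤ F⁻³`. Induction on `n` for all curves and energies. `n = 0`: hypothesis (`RN 1 ⊂ RN 2`, LJT (3)). `n + 1`: `PVN^[n+1] V = PVN W`, `W = PVN^[n] V` measurable;
Tonelli (`(u, o) ↦ PhiN (γ u, E) o` is measurable, `γ` continuous): `∫_u PVN W (γ u, E) = ∫_(o ∈ bx) ∫_u [W(PhiN (γ u, E) o) + W(ngM ..)]`. For fixed `o = (θ1, s1, η1, ε)`: `γ kM θ1` is in `RN 2` (LJT (1), `κ = 1`, `E' = E`), its flow for the time `τ + s1 ≥ 6C²` is in `RN (1/2)` (LGF), times `kM η1` in `RN 1` for the energy `E + ε`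
(LJT (1), `κ = 1/2`, `E' = E + ε`, `|ε| ≤ r2 ≤ F⁻³`); the same with `ngM` on the left (LJT (2)). The length grows by at least `(1/2) e^((τ-1)/(3C²)) (1/2) ≥ e^(τ/(6C²))`. So the inner integral is `≤ 2 (32 r2⁴)^n θ (v'-v)`, and `volume (bx r) = 16 r⁴`. -/
def LIB_stmt : Prop := ∀ (k C F : ℝ), 0 < k → 1 ≤ C → FM C ≤ F → ∀ A : Prm, Adm 10 A → ∃ R0 : ℝ, 1 ≤ R0 ∧ ∀ (R : ℝ) (D : Dyn) (V : SL(2, ℝ) × ℝ → ENNReal) (θ l0 : ℝ), R0 ≤ R → FK k C D →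
  Measurable (fun q : (SL(2, ℝ) × ℝ) × (ℝ × ℝ × ℝ × ℝ) => PhiN D (A.tu R) q.1 q.2) → (∀ V : SL(2, ℝ) × ℝ → ENNReal, Measurable V → Measurable (PVN D A R V)) → Measurable V → 0 ≤ θ → 0 < l0 →
  (∀ (E : ℝ) (γ : ℝ → SL(2, ℝ)) (x b c ℓ : ℝ → ℝ) (v v' : ℝ), |E| ≤ 2 * R ^ (-(1 / 4) : ℝ) → RN C F 2 D E γ x b c ℓ → v < v' → l0 ≤ ℓ v' - ℓ v → ∫⁻ u in Icc v v', V (γ u, E) ≤ ENNReal.ofReal (θ * (v' - v))) →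
  ∀ (n : ℕ) (E : ℝ) (γ : ℝ → SL(2, ℝ)) (x b c ℓ : ℝ → ℝ) (v v' : ℝ), |E| + n * r2 A R ≤ 2 * R ^ (-(1 / 4) : ℝ) → RN C F 1 D E γ x b c ℓ → v < v' → l0 ≤ Real.exp (n * A.tu R / (6 * C ^ 2)) * (ℓ v' - ℓ v) →
    ∫⁻ u in Icc v v', (PVN D A R)^[n] V (γ u, E) ≤ ENNReal.ofReal ((32 * r2 A R ^ 4) ^ n * θ * (v' - v))

/-- **Row LI7** = `I7N_stmt` of helper11/VN/Spec3i (medium; from LFK, LMS, LLL, LIA, LIB, LST, LJT, LGF; model: RI7). `C0 ≥ 1` = constant of LFK, `F = FM C0`, `cb = 4 C0²`, `C` = maximum of `10` and the constant `C'` of LIA. `v0`, `l0` of LLL, `C1 = F/l0`; `th` = the `th` of LLL, `θ = R^(-2 th)`, `z0 = th e2/(4 cb (C' + 8))`.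
For `b`: `A.tu R = e2 log R`, so `1 ≤ b ≤ 2cb/e2`. `V = 1_BadP` (LMS). LIA with `n = b` (`|p.2| ≤ (5/4) R^(-1/4)`, `b r2 ≤ (1/4) R^(-1/4)` for `R ≥ R0`). `PVN^[b] V p = PVN (PVN^[b-1] V) p`: Tonelli with the first coordinate `θ ∈ [-r2, r2]` innermost: for fixed `(s, η, ε)` the curve `θ ↦ fl E (τ+s) (g kM θ) kM η` is the flow for the time
`τ + s - 1 ≥ 6C0²` of the curve of LST (`RN (1/2)`, so `RN 2`; LGF: `RN (1/2)`), times `kM η` at the energy `E + ε` (LJT (1)): in `RN 1`, of length `≥ (1/2) e^((τ-2)/(3C0²)) (2/C0) 2 r2`; also `ngM` times it. LIB with `n = b - 1`: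
`(b-1)τ/(6C0²) + (τ-2)/(3C0²) ≥ bτ/(6C0²) - 1 ≥ (2/3) log R - 1`, so `e^(..) (1/C0) 2 R^(-1/2) ≥ R^(1/6)/(2 C0) ≥ 1 ≥ l0` for `R ≥ R0`. Total `PVN^[b] V p ≤ (32 r2⁴)^b θ`, `r2⁴ = R^(-2 + 8 z2)`, so `qZ ≤ (32 R^(2 + (C'+8) z2))^b R^(-2 th)`, and `(64 π)^b R^((C'+8) z2 b) ≤ R^(th/2) R^(th/2)` (`z2 ≤ z0`, `b ≤ 2cb/e2`, `R ≥ R0`). -/
def LI7_stmt : Prop := I7N_stmt

end

end Pool.Agent.VN
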