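import Pool.Agent.helper93.VN.SpecL
import Pool.Agent.helper93.VQ.All
import Pool.Agent.helper80.VQ.AllFL
import Pool.Agent.helper2.VN.NUB
import Pool.Agent.helper23.VN.NDN
import Pool.Agent.helper36.VN.NJW
import Pool.Agent.helper49.VN.LVS
import Pool.Agent.helper61.VN.LFK
import Pool.Agent.helper71.VN.LMS
import Pool.Agent.helper1.VN.LSL
import Pool.Agent.helper85.VN.LS0
import Pool.Agent.helper3.VN.LTW
import Pool.Agent.helper94.VN.LDR
import Pool.Agent.helper71.VN.LGF
import Pool.Agent.helper67.VN.LST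
import Pool.Agent.helper39.VN.LVA
import Pool.Agent.helper22.VN.LLC
import Pool.Agent.helper59.VN.LLL
import Pool.Agent.helper33.VN.LIA
import Pool.Agent.helper27.VN.LIB
import Pool.Agent.helper78.VN.LUW
import Pool.Agent.helper94.VN.LI7
import Pool.Agent.helper31.VN.LJT

/-!
# Project VN (MP_07c750_an), block LD (regular curves, large deviations): assembly
-/

set_option autoImplicit false

namespace Pool.Agent.VN

theorem BL_NUB : NUB_stmt := NUB_proof VQ.VCD_proof

theorem BL_NDN : NDN_stmt := NDN_proof VQ.VCD_proof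

theorem BL_NJW : NJW_stmt := NJW_proof BL_NDN

theorem BL_LVS : LVS_stmt := LVS_proof VQ.F_FLC

theorem BL_LFK : LFK_stmt := LFK_proof BL_NUB BL_NJW BL_NDN BL_LVS F_FLBN

theorem BL_LGF : LGF_stmt := LGF_proof LSL_proof LTW_proof LDR_proof

theorem BL_LST : LST_stmt := LST_proof LS0_proof

theorem BL_LJT : LJT_stmt := LJT_proof LDR_proof

theorem BL_LVA : LVA_stmt := LVA_proof BL_LGF LDR_proof BL_LJT

theorem BL_LLC : LLC_stmt := LLC_proof BL_LGF VQ.RPI_proof

theorem BL_LLL : LLL_stmt := LLL_proof BL_LGF BL_LLC (LUW_proof LDR_proof) BL_LVA VQ.RWI_proof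

theorem BL_LIB : LIB_stmt := LIB_proof BL_LGF BL_LJT

theorem BL_LIA (hDON : DON_stmt) : LIA_stmt := LIA_proof hDON LMS_proof

/-- **(I7N)** large deviations, from the domination -/
theorem BL_I7N (hDON : DON_stmt) : I7N_stmt :=
  LI7_proof BL_LFK LMS_proof BL_LLL (BL_LIA hDON) BL_LIB BL_LST BL_LJT BL_LGF

end Pool.Agent.VN
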